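import Pool.Agent.H23.CMC.Targets

/-!
# Board cm4_modules, row G_MSM: the sum over the weights
-/

set_option autoImplicit false

open NumberField MeasureTheory Set Filter Complex
open scoped nonZeroDivisors Real

namespace Pool.Agent.H42.CMC

open Pool.Agent.H23.CMC
open Pool.Agent.H65.CM4 (Sq nm dg Pl rv)
open Pool.Agent.H65.CMC (Emb ty PrTo IsHk ms IsLk gg GM cG Km Idx cdc Fmc lc)
open Pool.Agent.H23.CM4 (nJ Jd Nr wB)
open Pool.Agent.H23.LC (HG ag)

/-- the weight of an integer -/
noncomputable def wt (j : ℤ) : ℝ := ((1 + |(j : ℝ)|) ^ 2)⁻¹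

theorem wt_nonneg (j : ℤ) : 0 ≤ wt j := by
  unfold wt
  positivity

theorem wt_summable : Summable wt := by
  have h0 : Summable fun n : ℕ => ((1 + (n : ℝ)) ^ 2)⁻¹ := by
    have h := (summable_nat_add_iff 1).2 (Real.summable_nat_pow_inv.2 one_lt_two)
    refine h.congr fun n => ?_
    push_cast
    rw [add_comm]
  refine Summable.of_nat_of_neg ?_ ?_
  · refine h0.congr fun n => ?_
    unfold wt
    rw [Int.cast_natCast, abs_of_nonneg (Nat.cast_nonneg n)]
  · refine h0.congr fun n => ?_
    unfold wt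
    rw [Int.cast_neg, Int.cast_natCast, abs_neg, abs_of_nonneg (Nat.cast_nonneg n)]

theorem card_le (k : Type) [Field k] [NumberField k] : Fintype.card (Pl k) ≤ dg k := by
  have h1 := NumberField.InfinitePlace.card_add_two_mul_card_eq_rank k
  have h2 := NumberField.InfinitePlace.card_eq_nrRealPlaces_add_nrComplexPlaces k
  change Fintype.card (InfinitePlace k) ≤ Module.finrank ℚ k
  omega

theorem pf_MSM : T_MSM := by
  intro k _ _ _
  classical
  set Z : ℝ := ∑' j, wt j with hZ
  have hZ0 : 0 ≤ Z := tsum_nonneg wt_nonneg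
  refine ⟨Z ^ Fintype.card (Pl k) + 1, by positivity, fun M => ?_⟩
  have h1 : ∀ m ∈ M, ((1 + ms m) ^ (2 * dg k))⁻¹ ≤ ∏ v : Pl k, wt (m v) := by
    intro m _
    have hms : ∀ v, |(m v : ℝ)| ≤ ms m := fun v =>
      Finset.single_le_sum (f := fun v => |(m v : ℝ)|) (fun _ _ => abs_nonneg _)
        (Finset.mem_univ v)
    have hms0 : 0 ≤ ms m := Finset.sum_nonneg fun _ _ => abs_nonneg _
    unfold wt
    rw [Finset.prod_inv_distrib]
    refine inv_anti₀ (Finset.prod_pos fun v _ => by positivity) ?_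
    calc ∏ v : Pl k, (1 + |(m v : ℝ)|) ^ 2 ≤ ∏ _v : Pl k, (1 + ms m) ^ 2 := by
          refine Finset.prod_le_prod (fun v _ => by positivity) fun v _ => ?_
          have := hms v
          gcongr
      _ = (1 + ms m) ^ (2 * Fintype.card (Pl k)) := by
          rw [Finset.prod_const, Finset.card_univ, ← pow_mul]
      _ ≤ (1 + ms m) ^ (2 * dg k) := by
          refine pow_le_pow_right₀ (by linarith) ?_
          have := card_le k
          omega
  have h2 : M ⊆ Fintype.piFinset (fun v : Pl k => M.image fun m => m v) := by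
    intro m hm
    rw [Fintype.mem_piFinset]
    intro v
    exact Finset.mem_image_of_mem _ hm
  calc ∑ m ∈ M, ((1 + ms m) ^ (2 * dg k))⁻¹ ≤ ∑ m ∈ M, ∏ v : Pl k, wt (m v) :=
        Finset.sum_le_sum h1
    _ ≤ ∑ m ∈ Fintype.piFinset (fun v : Pl k => M.image fun m => m v), ∏ v : Pl k, wt (m v) :=
        Finset.sum_le_sum_of_subset_of_nonneg h2 fun m _ _ =>
          Finset.prod_nonneg fun v _ => wt_nonneg _
    _ = ∏ v : Pl k, ∑ j ∈ M.image (fun m => m v), wt j :=
        (Finset.prod_univ_sum _ (fun (_ : Pl k) (j : ℤ) => wt j)).symm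
    _ ≤ ∏ _v : Pl k, Z :=
        Finset.prod_le_prod (fun v _ => Finset.sum_nonneg fun j _ => wt_nonneg j) fun v _ =>
          wt_summable.sum_le_tsum _ fun j _ => wt_nonneg j
    _ = Z ^ Fintype.card (Pl k) := by rw [Finset.prod_const, Finset.card_univ]
    _ ≤ Z ^ Fintype.card (Pl k) + 1 := by linarith

end Pool.Agent.H42.CMC
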